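import Mathlib

/-! # Finitely generated abelian groups, and groups of finite rank -/

set_option autoImplicit false

namespace Pool.Agent.Helper83.AS

universe v

variable {A B C : Type v} [AddCommGroup A] [AddCommGroup B] [AddCommGroup C]

theorem fg_iff : AddGroup.FG A ↔ Module.Finite ℤ A := Module.Finite.iff_addGroup_fg.symm

/-- the middle term of an exact sequence -/
theorem finite_mid {f : A →+ B} {g : B →+ C} (h : Function.Exact f g) (hA : Module.Finite ℤ A)
    (hC : Module.Finite ℤ C) : Module.Finite ℤ B := by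
  let f' := f.toIntLinearMap
  let g' := g.toIntLinearMap
  have h1 : LinearMap.ker g' = LinearMap.range f' := by
    ext x
    exact h x
  have h2 : (LinearMap.ker g').FG := by
    rw [h1, LinearMap.range_eq_map]
    exact Submodule.FG.map _ Module.Finite.fg_top
  have h3 : (LinearMap.range g').FG := IsNoetherian.noetherian _
  exact ⟨Submodule.fg_of_fg_map_of_fg_inf_ker g' (by rwa [← LinearMap.range_eq_map])
    (by rwa [top_inf_eq])⟩

theorem subsingleton_mid {f : A →+ B} {g : B →+ C} (h : Function.Exact f g) [Subsingleton A] [Subsingleton C] :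
    Subsingleton B := by
  have key : ∀ x : B, x = 0 := by
    intro x
    obtain ⟨y, rfl⟩ := (h x).1 (Subsingleton.elim _ _)
    rw [Subsingleton.elim y 0, map_zero]
  exact ⟨fun x y => by rw [key x, key y]⟩

/-- the transfer argument -/
theorem finite_of_transfer {m : ℕ} (p : A →+ B) (q : B →+ A) (hB : Module.Finite ℤ B)
    (h : ∀ x, q (p x) = m • x) (ht : {x : A | m • x = 0}.Finite) : Module.Finite ℤ A := by
  let p' := p.toIntLinearMap
  have h1 : (LinearMap.ker p' : Set A) ⊆ {x : A | m • x = 0} := by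
    intro x hx
    have hx0 : p x = 0 := hx
    change m • x = 0
    rw [← h x, hx0, map_zero]
  have h2 : (LinearMap.ker p').FG := by
    have hf : (LinearMap.ker p' : Set A).Finite := ht.subset h1
    exact ⟨hf.toFinset, by simp⟩
  have h3 : (LinearMap.range p').FG := IsNoetherian.noetherian _
  exact ⟨Submodule.fg_of_fg_map_of_fg_inf_ker p' (by rwa [← LinearMap.range_eq_map])
    (by rwa [top_inf_eq])⟩

/-- a finitely generated rational vector space is zero -/
theorem subsingleton_of_rational (hA : Module.Finite ℤ A)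
    (h : ∀ m : ℕ, 0 < m → Function.Bijective fun x : A => m • x) : Subsingleton A := by
  have h1 : (⊤ : Submodule ℤ A) ≤ (Ideal.span {(2 : ℤ)}) • (⊤ : Submodule ℤ A) := by
    intro x _
    obtain ⟨y, hy⟩ := (h 2 (by norm_num)).2 x
    have : x = (2 : ℤ) • y := by rw [← hy]; norm_cast
    rw [this]
    exact Submodule.smul_mem_smul (Ideal.mem_span_singleton_self _) trivial
  obtain ⟨r, hr, hr0⟩ := Submodule.exists_sub_one_mem_and_smul_eq_zero_of_fg_of_le_smul
    (Ideal.span {(2 : ℤ)}) (⊤ : Submodule ℤ A) Module.Finite.fg_top h1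
  have hr1 : r ≠ 0 := by
    rintro rfl
    rw [Ideal.mem_span_singleton] at hr
    omega
  constructor
  intro x y
  have key : ∀ x : A, x = 0 := by
    intro x
    apply (h r.natAbs (Int.natAbs_pos.mpr hr1)).1
    have h2 : r • x = 0 := hr0 x trivial
    change r.natAbs • x = r.natAbs • (0 : A)
    rw [smul_zero]
    rcases Int.natAbs_eq r with h3 | h3
    · rw [h3, natCast_zsmul] at h2; exact h2
    · rw [h3, neg_smul, natCast_zsmul, neg_eq_zero] at h2; exact h2
  rw [key x, key y]

/-! ## Groups of finite rank -/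

open Cardinal

theorem rank_mid {f : A →+ B} {g : B →+ C} (h : Function.Exact f g) (hA : Module.rank ℤ A < ℵ₀)
    (hC : Module.rank ℤ C < ℵ₀) : Module.rank ℤ B < ℵ₀ := by
  let f' := f.toIntLinearMap
  let g' := g.toIntLinearMap
  have h1 : LinearMap.ker g' = LinearMap.range f' := by
    ext x
    exact h x
  rw [← g'.rank_range_add_rank_ker, h1]
  exact Cardinal.add_lt_aleph0 (lt_of_le_of_lt (Submodule.rank_le _) hC) (lt_of_le_of_lt (rank_range_le f') hA)

theorem rank_eq_zero_of_torsion (h : ∀ x : A, ∃ N : ℕ, 0 < N ∧ N • x = 0) : Module.rank ℤ A = 0 := by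
  rw [rank_eq_zero_iff]
  intro x
  obtain ⟨N, hN, hx⟩ := h x
  exact ⟨N, by exact_mod_cast hN.ne', by exact_mod_cast hx⟩

theorem rank_transfer {m : ℕ} (hm : 0 < m) (p : A →+ B) (q : B →+ A) (hB : Module.rank ℤ B < ℵ₀)
    (h : ∀ x, q (p x) = m • x) : Module.rank ℤ A < ℵ₀ := by
  let p' := p.toIntLinearMap
  rw [← p'.rank_range_add_rank_ker]
  have h1 : Module.rank ℤ (LinearMap.ker p') = 0 := by
    apply rank_eq_zero_of_torsion
    intro x
    refine ⟨m, hm, Subtype.ext ?_⟩
    have h2 : p x.1 = 0 := x.2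
    change m • x.1 = 0
    rw [← h, h2, map_zero]
  rw [h1, add_zero]
  exact lt_of_le_of_lt (Submodule.rank_le _) hB

end Pool.Agent.Helper83.AS
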