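import Mathlib

/-!
# Étale motivic Borel-Moore homology of arithmetic schemes in the weights `≤ 0`: the setting

The schemes are Mathlib's schemes. The groups `T.BM X m j = H_j(X_et, ℤᶜ(-m))` are a datum; their known
properties are listed in `Theory.Standard`. Textbook facts and theorems about schemes themselves are
closed propositions, listed in `Geometry`.
-/

set_option autoImplicit false

open CategoryTheory CategoryTheory.Limits AlgebraicGeometry

namespace Pool.Agent.Helper83.AS

universe v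

/-! ## Schemes -/

/-- the projective space `ℙ^N = Proj ℤ[x₀, …, x_N]` over `ℤ`, of dimension `N + 1` -/
noncomputable def space (N : ℕ) : Scheme.{0} :=
  letI := MvPolynomial.gradedAlgebra (σ := Fin (N + 1)) (R := ℤ)
  Proj (MvPolynomial.homogeneousSubmodule (Fin (N + 1)) ℤ)

/-- the product `ℙ^N × X` over `Spec ℤ`, which is the final object of the category of schemes -/
noncomputable def product (N : ℕ) (X : Scheme.{0}) : Scheme.{0} :=
  pullback (terminal.from (space N)) (terminal.from X)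

/-- `X` is a separated scheme of finite type over `Spec ℤ` (the final object) -/
structure FiniteType (X : Scheme.{0}) : Prop where
  separated : IsSeparated (terminal.from X)
  finiteType : LocallyOfFiniteType (terminal.from X)
  quasiCompact : QuasiCompact (terminal.from X)

/-- `X` is a regular, integral (equivalently: regular and connected) scheme, proper over `Spec ℤ` and of
Krull dimension `d`: the schemes of Q1 -/
structure Arithmetic (X : Scheme.{0}) (d : ℕ) : Prop where
  integral : IsIntegral X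
  regular : ∀ x : X, IsRegularLocalRing (X.presheaf.stalk x)
  proper : IsProper (terminal.from X)
  dim : topologicalKrullDim X = d

/-- `X` is projective over `Spec ℤ` -/
def IsProjective (X : Scheme.{0}) : Prop :=
  ∃ (N : ℕ) (i : X ⟶ space N), IsClosedImmersion i

/-- the sheaf of ideals is invertible: locally it is generated by one nonzerodivisor -/
def Invertible {Y : Scheme.{0}} (I : Y.IdealSheafData) : Prop :=
  ∀ y : Y, ∃ U : Y.affineOpens, y ∈ U.1 ∧ ∃ t ∈ nonZeroDivisors Γ(Y, U.1), I.ideal U = Ideal.span {t}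

/-- `f : Y ⟶ X` is the blow-up of `X` along the closed subscheme `i : Z ⟶ X` (universal property) -/
structure IsBlowup {X Y Z : Scheme.{0}} (i : Z ⟶ X) (f : Y ⟶ X) : Prop where
  invertible : Invertible ((Scheme.Hom.ker i).comap f)
  universal : ∀ (W : Scheme.{0}) (g : W ⟶ X), Invertible ((Scheme.Hom.ker i).comap g) →
    ∃! h : W ⟶ Y, h ≫ f = g

/-- Textbook facts and theorems about schemes (closed propositions). -/
structure Geometry : Prop where
  /-- alterations (de Jong): every integral `X`, separated and of finite type over `ℤ`, has a dense open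
  subscheme `U` with a finite flat cover `V` which is open in a regular projective scheme `Y` of the same
  dimension -/
  alteration : ∀ (X : Scheme.{0}) (d : ℕ), FiniteType X → IsIntegral X → topologicalKrullDim X = d →
    ∃ (Y V U : Scheme.{0}) (a : V ⟶ Y) (b : U ⟶ X) (f : V ⟶ U), Arithmetic Y d ∧ IsProjective Y ∧
      IsOpenImmersion a ∧ IsOpenImmersion b ∧ Nonempty U ∧ IsFinite f ∧ Flat f ∧ Surjective f
  /-- blow-ups exist -/
  exists_blowup : ∀ {M e : ℕ} {Z : Scheme.{0}} (i : Z ⟶ space M), IsClosedImmersion i → Arithmetic Z e →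
    e ≤ M → ∃ (Y : Scheme.{0}) (f : Y ⟶ space M), IsBlowup i f
  /-- the blow-up of a projective space over `ℤ` along a regular centre is regular, integral and proper -/
  blowup : ∀ {M e : ℕ} {Y Z : Scheme.{0}} (i : Z ⟶ space M) (f : Y ⟶ space M), IsClosedImmersion i →
    Arithmetic Z e → e ≤ M → IsBlowup i f → Arithmetic Y (M + 1)
  /-- if `X` is regular, integral and proper over `ℤ`, so is `ℙ^N × X`, and its dimension is `N + dim X` -/
  product : ∀ {X : Scheme.{0}} {d : ℕ}, Arithmetic X d → ∀ N : ℕ, Arithmetic (product N X) (d + N)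

/-! ## Homology -/

/-- Data: the étale motivic Borel-Moore homology groups `BM X m j = H_j(X_et, ℤᶜ(-m))` of the separated
schemes of finite type over `ℤ`, in the weights `-m ≤ 0`. The complex `ℤᶜ(-m)` is the étale cycle complex
of the cycles of dimension `-m` (of dimension `r - m` on `X × Δʳ`). If `X` is regular of dimension `d` these
are the cycles of codimension `d + m`, so `ℤᶜ(-m) = ℤ(d + m)[2d]` and `H_j(X_et, ℤᶜ(-m)) = H²ᵈ⁻ʲ(X_et, ℤ(d + m))`. -/
structure Theory where
  BM : Scheme.{0} → ℕ → ℤ → Type v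
  [group : ∀ X m j, AddCommGroup (BM X m j)]

attribute [instance] Theory.group

variable (T : Theory.{v})

/-- the étale motivic cohomology `Hⁱ(X_et, ℤ(n))` of a regular scheme `X` of dimension `d`, in the weights
`n ≥ d` -/
def Theory.H (X : Scheme.{0}) (d n : ℕ) (i : ℤ) : Type v := T.BM X (n - d) (2 * d - i)

instance (X : Scheme.{0}) (d n : ℕ) (i : ℤ) : AddCommGroup (T.H X d n i) :=
  inferInstanceAs (AddCommGroup (T.BM X (n - d) (2 * d - i)))

/-- the localization sequence
`⋯ → H_{j+1}(X) → H_{j+1}(U) → H_j(Z) → H_j(X) → H_j(U) → ⋯` of a closed subscheme `Z` and its open complement `U` -/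
def Theory.Localization : Prop :=
  ∀ {X Z U : Scheme.{0}} (i : Z ⟶ X) (u : U ⟶ X), FiniteType X → IsClosedImmersion i →
    IsOpenImmersion u → IsCompl (Set.range i) (Set.range u) → ∀ m : ℕ,
    ∃ (push : ∀ j : ℤ, T.BM Z m j →+ T.BM X m j) (pull : ∀ j : ℤ, T.BM X m j →+ T.BM U m j)
      (δ : ∀ j : ℤ, T.BM U m (j + 1) →+ T.BM Z m j),
      ∀ j : ℤ, Function.Exact (push j) (pull j) ∧ Function.Exact (pull (j + 1)) (δ j) ∧
        Function.Exact (δ j) (push j)

/-- for a finite flat morphism of degree `N`, push-forward after pull-back is the multiplication by `N` -/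
def Theory.Transfer : Prop :=
  ∀ {V U : Scheme.{0}} (f : V ⟶ U), FiniteType U → IsFinite f → Flat f → ∀ N : ℕ,
    (∀ x : U, f.finrank x = N) → ∀ (m : ℕ) (j : ℤ),
    ∃ (pull : T.BM U m j →+ T.BM V m j) (push : T.BM V m j →+ T.BM U m j), ∀ x, push (pull x) = N • x

/-- the groups with coefficients `ℤ/N` are finite -/
def Theory.Torsion : Prop :=
  ∀ {X : Scheme.{0}}, FiniteType X → ∀ (m : ℕ) (j : ℤ) (N : ℕ), 0 < N → {x : T.BM X m j | N • x = 0}.Finite

/-- above twice the dimension the groups with coefficients `ℤ/N` are zero: there the groups are the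
rational groups (for a regular scheme these are the degrees `i < 0`) -/
def Theory.RationalAbove : Prop :=
  ∀ {X : Scheme.{0}} {d : ℕ}, FiniteType X → topologicalKrullDim X ≤ d → ∀ (m : ℕ) (j : ℤ),
    2 * d < j → ∀ N : ℕ, 0 < N → Function.Bijective fun x : T.BM X m j => N • x

/-- the projective bundle formula `H_j(ℙ^N × X, ℤᶜ(0)) = ⊕_{0 ≤ k ≤ N} H_{j-2k}(X, ℤᶜ(-k))` -/
def Theory.Bundle : Prop :=
  ∀ {X : Scheme.{0}} {d : ℕ}, Arithmetic X d → ∀ (N : ℕ) (j : ℤ),
    Nonempty (T.BM (product N X) 0 j ≃+ ((k : Fin (N + 1)) → T.BM X k (j - 2 * (k : ℕ))))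

/-- `⊕_{1 ≤ k ≤ a} H_{j-2k}(Z, ℤᶜ(-k))` (written with `k + 1` for `k`) -/
abbrev Theory.Sum (Z : Scheme.{0}) (a : ℕ) (j : ℤ) : Type v :=
  (k : Fin a) → T.BM Z (k + 1) (j - 2 * ((k : ℕ) + 1))

/-- the exact sequence
`H_{j+1}(ℙ^M, ℤᶜ(0)) → ⊕_{1 ≤ k < c} H_{j-2k}(Z, ℤᶜ(-k)) → H_j(Y, ℤᶜ(0)) → H_j(ℙ^M, ℤᶜ(0))` of the blow-up `Y` of `ℙ^M` along a
regular centre `Z` of dimension `e` and codimension `c = M + 1 - e` -/
def Theory.Blowup : Prop :=
  ∀ {M e : ℕ} {Z Y : Scheme.{0}} (i : Z ⟶ space M) (f : Y ⟶ space M),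
    IsClosedImmersion i → Arithmetic Z e → e ≤ M → IsBlowup i f → ∀ j : ℤ,
    ∃ (δ : T.BM (space M) 0 (j + 1) →+ T.Sum Z (M - e) j) (g : T.Sum Z (M - e) j →+ T.BM Y 0 j)
      (h : T.BM Y 0 j →+ T.BM (space M) 0 j), Function.Exact δ g ∧ Function.Exact g h

/-- The known properties of the groups which are used. -/
structure Theory.Standard : Prop where
  empty : ∀ (X : Scheme.{0}), IsEmpty X → ∀ (m : ℕ) (j : ℤ), Subsingleton (T.BM X m j)
  localization : T.Localization
  transfer : T.Transfer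
  torsion : T.Torsion
  rational : T.RationalAbove
  /-- for a regular proper scheme `Z` of dimension `d`, in the weights `n > d`, the groups
  `Hⁱ(Z_et, ℤ(n)) = Hⁱ⁻¹(Z_et, ℚ/ℤ(n))`, `i > 2 n`, are finite -/
  high : ∀ {Z : Scheme.{0}} {d : ℕ}, Arithmetic Z d → ∀ m : ℕ, 0 < m → ∀ j : ℤ, 2 * m + j < 0 →
    Finite (T.BM Z m j)
  /-- for a regular proper scheme `Z` of dimension `d`, the groups `Hⁱ(Z_et, ℤ(d))`, `i > 2 d`, are torsion
  groups -/
  top : ∀ {Z : Scheme.{0}} {d : ℕ}, Arithmetic Z d → ∀ j < 0, ∀ x : T.BM Z 0 j, ∃ N : ℕ, 0 < N ∧ N • x = 0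
  /-- projective spaces over `ℤ`, in the weight `dim = M + 1` and the degrees `i = 2 (M + 1) - j ≤ 2 (M + 1)` -/
  projective : ∀ (M : ℕ) (j : ℤ), 0 ≤ j → AddGroup.FG (T.BM (space M) 0 j)
  bundle : T.Bundle
  blowup : T.Blowup

/-! ## The two sides of the equivalences -/

/-- `Y` is a blow-up of a projective space `ℙ^M` over `ℤ` along a closed subscheme isomorphic to `Z`, of
codimension at least one, where `e = dim Z` and `d = M + 1 = dim Y` -/
def Rational (Z : Scheme.{0}) (e : ℕ) (Y : Scheme.{0}) (d : ℕ) : Prop :=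
  ∃ (M : ℕ) (i : Z ⟶ space M) (f : Y ⟶ space M), d = M + 1 ∧ e ≤ M ∧ IsClosedImmersion i ∧ IsBlowup i f

/-- Q1 for a regular scheme `X` of dimension `d` -/
def Theory.Q1 (X : Scheme.{0}) (d : ℕ) : Prop :=
  ∀ i : ℤ, 0 ≤ i → i ≤ 2 * d → AddGroup.FG (T.H X d d i)

/-- Q1 for `Y`, `d = dim Y`, only for the groups `H²ᵈ⁻ᵗ(Y_et, ℤ(d))`, `0 ≤ t ≤ 2 d`, such that `R d t` -/
def Theory.Sample (R : ℕ → ℕ → Prop) (Y : Scheme.{0}) (d : ℕ) : Prop :=
  ∀ t : ℕ, R d t → t ≤ 2 * d → AddGroup.FG (T.H Y d d (2 * d - t))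

/-- all groups `H_j(X_et, ℤᶜ(-m))`, `m ≥ 1`, are finitely generated, and they are zero for `j > 2 dim X` -/
def Theory.Negative (X : Scheme.{0}) : Prop :=
  ∀ m ≥ 1, ∀ j : ℤ, AddGroup.FG (T.BM X m j) ∧
    ∀ d : ℕ, topologicalKrullDim X ≤ d → 2 * d < j → Subsingleton (T.BM X m j)

/-- all groups `H_j(X_et, ℤᶜ(0))` have finite rank, and they are zero for `j > 2 dim X` -/
def Theory.Zero (X : Scheme.{0}) : Prop :=
  ∀ j : ℤ, Module.rank ℤ (T.BM X 0 j) < Cardinal.aleph0 ∧
    ∀ d : ℕ, topologicalKrullDim X ≤ d → 2 * d < j → Subsingleton (T.BM X 0 j)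

/-- in the weight `n`: `Hⁱ(X_et, ℤ(n))` is finitely generated for `i ≤ 2 n`, and zero for `i < 0`; here `X` is
regular of dimension `d` and `n ≥ d` -/
def Theory.Weight (X : Scheme.{0}) (d n : ℕ) : Prop :=
  ∀ i : ℤ, i ≤ 2 * n → AddGroup.FG (T.H X d n i) ∧ (i < 0 → Subsingleton (T.H X d n i))

end Pool.Agent.Helper83.AS
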