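import Pool.Agent.Helper83.AS.Geom

/-! # Projective spaces over `ℤ` are closed in each other -/

set_option autoImplicit false

open CategoryTheory CategoryTheory.Limits AlgebraicGeometry HomogeneousLocalization

namespace Pool.Agent.Helper83.AS

/-- the graded ring `ℤ[x₀, …, x_N]` -/
noncomputable abbrev gr (N : ℕ) : ℕ → Submodule ℤ (MvPolynomial (Fin (N + 1)) ℤ) :=
  MvPolynomial.homogeneousSubmodule (Fin (N + 1)) ℤ

noncomputable instance (N : ℕ) : GradedAlgebra (gr N) := MvPolynomial.gradedAlgebra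

theorem space_eq (N : ℕ) : space N = Proj (gr N) := rfl

/-! ## Surjective homomorphisms of graded rings -/

section
variable {A B : Type} [CommRing A] [CommRing B] {𝒜 : ℕ → Submodule ℤ A} {ℬ : ℕ → Submodule ℤ B}
  [GradedAlgebra 𝒜] [GradedAlgebra ℬ]

theorem away_map_surjective (f : 𝒜 →+*ᵍ ℬ) (hs : ∀ n, ∀ b ∈ ℬ n, ∃ a ∈ 𝒜 n, f a = b) {d : ℕ} {s : A}
    (hd : s ∈ 𝒜 d) : Function.Surjective (Away.map f s) := by
  intro y
  obtain ⟨n, b, hb, rfl⟩ := Away.mk_surjective ℬ (f.map_mem hd) y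
  obtain ⟨a, ha, rfl⟩ := hs _ b hb
  exact ⟨Away.mk 𝒜 hd n a ha, by simp⟩

theorem irrelevant_le_of_surjective (f : 𝒜 →+*ᵍ ℬ) (hs : ∀ n, ∀ b ∈ ℬ n, ∃ a ∈ 𝒜 n, f a = b) :
    HomogeneousIdeal.irrelevant ℬ ≤ (HomogeneousIdeal.irrelevant 𝒜).map f := by
  rw [HomogeneousIdeal.irrelevant_le]
  intro i hi b hb
  obtain ⟨a, ha, rfl⟩ := hs i b hb
  exact Ideal.mem_map_of_mem f (HomogeneousIdeal.mem_irrelevant_of_mem 𝒜 hi ha)

theorem isClosedImmersion_snd (f : 𝒜 →+*ᵍ ℬ)
    (hf : HomogeneousIdeal.irrelevant ℬ ≤ (HomogeneousIdeal.irrelevant 𝒜).map f)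
    (hs : ∀ n, ∀ b ∈ ℬ n, ∃ a ∈ 𝒜 n, f a = b) {d : ℕ} (s : A) (hd : s ∈ 𝒜 d) (h0 : 0 < d) :
    IsClosedImmersion (pullback.snd (Proj.map f hf) (Proj.awayι 𝒜 s hd h0)) := by
  have h1 : IsPullback (Spec.map (CommRingCat.ofHom (Away.map f s)))
      (Proj.awayι ℬ (f s) (f.map_mem hd) h0) (Proj.awayι 𝒜 s hd h0) (Proj.map f hf) := by
    have i1 : IsOpenImmersion (Proj.awayι ℬ (f s) (f.map_mem hd) h0) := inferInstance
    have i2 : IsOpenImmersion (Proj.awayι 𝒜 s hd h0) := inferInstance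
    refine IsOpenImmersion.isPullback _ _ _ _ (Proj.awayι_comp_map f hf h0 s hd) ?_
    rw [Proj.opensRange_awayι, Proj.opensRange_awayι]
    rfl
  have h2 : IsClosedImmersion (Spec.map (CommRingCat.ofHom (Away.map f s))) :=
    IsClosedImmersion.spec_of_surjective _ (away_map_surjective f hs hd)
  exact (MorphismProperty.cancel_left_of_respectsIso @IsClosedImmersion h1.flip.isoPullback.hom _).1 (by
    rw [h1.flip.isoPullback_hom_snd]; exact h2)

theorem isClosedImmersion_map (f : 𝒜 →+*ᵍ ℬ)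
    (hf : HomogeneousIdeal.irrelevant ℬ ≤ (HomogeneousIdeal.irrelevant 𝒜).map f)
    (hs : ∀ n, ∀ b ∈ ℬ n, ∃ a ∈ 𝒜 n, f a = b) : IsClosedImmersion (Proj.map f hf) :=
  IsZariskiLocalAtTarget.of_openCover (P := @IsClosedImmersion) (Proj.affineOpenCover 𝒜).openCover
    fun s => isClosedImmersion_snd f hf hs s.2.1 s.2.2 s.1.2

end

/-! ## Linear subspaces -/

/-- restriction of the polynomials to a coordinate subspace -/
noncomputable def res {N M : ℕ} : MvPolynomial (Fin (M + 1)) ℤ →ₐ[ℤ] MvPolynomial (Fin (N + 1)) ℤ :=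
  MvPolynomial.aeval fun i => if h : (i : ℕ) < N + 1 then MvPolynomial.X ⟨i, h⟩ else 0

theorem res_homogeneous {N M n : ℕ} {p : MvPolynomial (Fin (M + 1)) ℤ} (hp : p.IsHomogeneous n) :
    (res (N := N) p).IsHomogeneous n := by
  have h1 : ∀ i : Fin (M + 1), (if h : (i : ℕ) < N + 1 then MvPolynomial.X ⟨i, h⟩ else 0 :
      MvPolynomial (Fin (N + 1)) ℤ).IsHomogeneous 1 := by
    intro i
    split_ifs with h
    · exact MvPolynomial.isHomogeneous_X _ _
    · exact MvPolynomial.isHomogeneous_zero _ _ _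
  have h2 := hp.aeval _ h1
  rwa [one_mul] at h2

theorem res_rename {N M : ℕ} (h : N ≤ M) (p : MvPolynomial (Fin (N + 1)) ℤ) :
    res (N := N) (M := M) (MvPolynomial.rename (Fin.castLE (by omega)) p) = p := by
  unfold res
  rw [MvPolynomial.aeval_rename]
  conv_rhs => rw [← MvPolynomial.aeval_X_left_apply p]
  congr 2
  funext i
  have hi := i.2
  simp only [Function.comp_apply, Fin.val_castLE, dif_pos hi]

/-- restriction of the polynomials, as a graded homomorphism -/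
noncomputable def resGr (N M : ℕ) : gr M →+*ᵍ gr N where
  toRingHom := (res (N := N) (M := M)).toRingHom
  map_mem := fun hx => res_homogeneous hx

theorem exists_closedImmersion {N M : ℕ} (h : N ≤ M) : ∃ i : space N ⟶ space M, IsClosedImmersion i := by
  have hs : ∀ n, ∀ b ∈ gr N n, ∃ a ∈ gr M n, resGr N M a = b := fun n b hb =>
    ⟨MvPolynomial.rename (Fin.castLE (by omega)) b, MvPolynomial.IsHomogeneous.rename_isHomogeneous hb, res_rename h b⟩
  exact ⟨Proj.map (resGr N M) (irrelevant_le_of_surjective _ hs), isClosedImmersion_map _ _ hs⟩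

/-- a projective scheme is closed in all large projective spaces -/
theorem IsProjective.exists_embedding {X : Scheme.{0}} (h : IsProjective X) :
    ∃ N₀, ∀ M ≥ N₀, ∃ i : X ⟶ space M, IsClosedImmersion i := by
  obtain ⟨N, i, hi⟩ := h
  refine ⟨N, fun M hM => ?_⟩
  obtain ⟨j, hj⟩ := exists_closedImmersion hM
  exact ⟨i ≫ j, inferInstance⟩

end Pool.Agent.Helper83.AS
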