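import Pool.Agent.Helper83.AS.Sub
import Pool.Agent.Helper83.AS.Space


/-! # Dévissage -/

set_option autoImplicit false

open CategoryTheory CategoryTheory.Limits AlgebraicGeometry TopologicalSpace Topology

namespace Pool.Agent.Helper83.AS

/-! ## Numbers -/

theorem withBot_cases (x : WithBot ℕ∞) : x = ⊥ ∨ x = ((⊤ : ℕ∞) : WithBot ℕ∞) ∨ ∃ n : ℕ, x = (n : WithBot ℕ∞) := by
  induction x using WithBot.recBotCoe with
  | bot => exact Or.inl rfl
  | coe x =>
    induction x using ENat.recTopCoe with
    | top => exact Or.inr (Or.inl rfl)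
    | coe n => exact Or.inr (Or.inr ⟨n, rfl⟩)

theorem lt_of_add_one_le {x : WithBot ℕ∞} {e : ℕ} (h : x + 1 ≤ e) : x < e := by
  rcases withBot_cases x with rfl | rfl | ⟨n, rfl⟩
  · exact WithBot.bot_lt_coe (e : ℕ∞)
  · have h1 : ((⊤ : ℕ∞) : WithBot ℕ∞) ≤ (e : ℕ) := le_trans (le_add_of_nonneg_right zero_le_one) h
    exact absurd h1 (not_le_of_gt (WithBot.coe_lt_coe.2 (ENat.natCast_lt_top e)))
  · have h1 : n + 1 ≤ e := by exact_mod_cast h
    exact_mod_cast Nat.lt_of_succ_le h1

theorem exists_nat_of_le {x : WithBot ℕ∞} {d : ℕ} (h : x ≤ (d : ℕ)) (hx : x ≠ ⊥) : ∃ e : ℕ, e ≤ d ∧ x = e := by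
  rcases withBot_cases x with rfl | rfl | ⟨n, rfl⟩
  · exact absurd rfl hx
  · exact absurd h (not_le_of_gt (WithBot.coe_lt_coe.2 (ENat.natCast_lt_top d)))
  · refine ⟨n, ?_, rfl⟩
    exact_mod_cast h

theorem le_of_lt_add_one {x : WithBot ℕ∞} {d : ℕ} (h : x < (d + 1 : ℕ)) : x ≤ d := by
  rcases withBot_cases x with rfl | rfl | ⟨n, rfl⟩
  · exact bot_le
  · exact absurd h (not_lt_of_ge (WithBot.coe_le_coe.2 le_top))
  · have h1 : n < d + 1 := by exact_mod_cast h
    exact_mod_cast Nat.le_of_lt_succ h1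

theorem isEmpty_of_lt_zero {X : Scheme.{0}} (h : topologicalKrullDim X < (0 : ℕ)) : IsEmpty X := by
  by_contra h1
  rw [not_isEmpty_iff] at h1
  obtain ⟨x⟩ := h1
  have h2 : Nonempty (IrreducibleCloseds X) :=
    ⟨⟨closure {x}, isIrreducible_singleton.closure, isClosed_closure⟩⟩
  have h3 : (0 : WithBot ℕ∞) ≤ topologicalKrullDim X := Order.krullDim_nonneg
  exact absurd h (not_lt_of_ge h3)

theorem krullDim_ne_bot {X : Scheme.{0}} [Nonempty X] : topologicalKrullDim X ≠ ⊥ := by
  intro h
  have h1 : topologicalKrullDim X < (0 : ℕ) := by rw [h]; exact WithBot.bot_lt_coe _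
  exact not_isEmpty_of_nonempty X (isEmpty_of_lt_zero h1)

/-! ## Open and closed subschemes -/

/-- the closed complement of an open subscheme -/
theorem exists_complement {X U : Scheme.{0}} (u : U ⟶ X) (hu : IsOpenImmersion u) :
    ∃ (Z : Scheme.{0}) (i : Z ⟶ X), IsClosedImmersion i ∧ IsCompl (Set.range i) (Set.range u) := by
  have hC : IsClosed (Set.range u)ᶜ := u.isOpenEmbedding.isOpen_range.isClosed_compl
  refine ⟨_, (Scheme.IdealSheafData.vanishingIdeal ⟨(Set.range u)ᶜ, hC⟩).subschemeι, inferInstance, ?_⟩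
  rw [Scheme.IdealSheafData.range_subschemeι]
  exact isCompl_compl.symm

/-- the complement of a nonempty open subscheme of an irreducible scheme has smaller dimension -/
theorem krullDim_complement_lt {Y Z V : Scheme.{0}} [IrreducibleSpace Y] {e : ℕ} (hd : topologicalKrullDim Y = e)
    (i : Z ⟶ Y) (a : V ⟶ Y) (hi : IsClosedImmersion i) (hV : Nonempty V)
    (hc : IsCompl (Set.range i) (Set.range a)) : topologicalKrullDim Z < e := by
  have hns : ¬ Function.Surjective i := by
    intro hs
    obtain ⟨y⟩ := hV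
    have h1 := hc.disjoint
    rw [hs.range_eq, Set.disjoint_left] at h1
    exact h1 (Set.mem_univ (a y)) ⟨y, rfl⟩
  have h1 := krullDim_add_one_le i.isClosedEmbedding hns
  rw [hd] at h1
  exact lt_of_add_one_le h1

theorem exists_irreducible_open (X : Scheme.{0}) [IsNoetherian X] [Nonempty X] :
    ∃ U : X.Opens, IrreducibleSpace U := by
  obtain ⟨x⟩ : Nonempty X := inferInstance
  have hZ : irreducibleComponent x ∈ irreducibleComponents X := irreducibleComponent_mem_irreducibleComponents x
  refine ⟨X.irreducibleComponentOpen (irreducibleComponent x), ?_⟩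
  have h1 : closure ((X.irreducibleComponentOpen (irreducibleComponent x) : X.Opens) : Set X) = irreducibleComponent x :=
    closure_sUnion_irreducibleComponents_sdiff_singleton
      TopologicalSpace.NoetherianSpace.finite_irreducibleComponents _ hZ
  have h2 : IsIrreducible ((X.irreducibleComponentOpen (irreducibleComponent x) : X.Opens) : Set X) := by
    rw [← isIrreducible_iff_closure, h1]
    exact isIrreducible_irreducibleComponent
  exact Subtype.irreducibleSpace h2

/-- **Dévissage.** -/
theorem devissage {P : Scheme.{0} → Prop} {D : ℕ} (P0 : ∀ X : Scheme.{0}, IsEmpty X → P X)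
    (P1 : ∀ {X Z U : Scheme.{0}} (i : Z ⟶ X) (u : U ⟶ X), FiniteType X → IsClosedImmersion i → IsOpenImmersion u →
      IsCompl (Set.range i) (Set.range u) → P Z → P U → P X)
    (P2 : ∀ (X : Scheme.{0}) (e : ℕ), FiniteType X → IsIntegral X → topologicalKrullDim X = e → e ≤ D →
      ∃ (U : Scheme.{0}) (b : U ⟶ X), IsOpenImmersion b ∧ Nonempty U ∧ P U) :
    ∀ X, FiniteType X → topologicalKrullDim X ≤ D → P X := by
  -- surjective closed immersions
  have P3 : ∀ {X Z : Scheme.{0}} (i : Z ⟶ X), FiniteType X → IsClosedImmersion i → Function.Surjective i →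
      P Z → P X := by
    intro X Z i hX hi hs hZ
    refine P1 i (⊥ : X.Opens).ι hX hi inferInstance ?_ hZ (P0 _ ⟨fun x => x.2⟩)
    rw [hs.range_eq, Scheme.Opens.range_ι]
    exact isCompl_top_bot
  intro X hX
  refine noetherian_induction (P := fun X => topologicalKrullDim X ≤ D → P X) ?_ X hX
  clear hX X
  intro X hX ih hdim
  rcases isEmpty_or_nonempty X with hE | hE
  · exact P0 X hE
  have hN := hX.isNoetherian
  obtain ⟨U, hU⟩ := exists_irreducible_open X
  have hUf : FiniteType U := hX.of_open U.ι inferInstance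
  -- the reduced scheme of `U`
  have hI : IsIntegral (U : Scheme.{0}).nilradical.subscheme := nilradical_isIntegral
  set r := (U : Scheme.{0}).nilradical.subschemeι with hr
  have hrc : IsClosedImmersion r := inferInstance
  have hR : FiniteType (U : Scheme.{0}).nilradical.subscheme := hUf.of_closed r hrc
  have hdR : topologicalKrullDim (U : Scheme.{0}).nilradical.subscheme ≤ D :=
    (r.isClosedEmbedding.isInducing.topologicalKrullDim_le.trans
      U.ι.isOpenEmbedding.isInducing.topologicalKrullDim_le).trans hdim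
  obtain ⟨e, he, hde⟩ := exists_nat_of_le hdR krullDim_ne_bot
  obtain ⟨W, b, hb, ⟨x⟩, hW⟩ := P2 _ e hR hI hde he
  -- the corresponding open subscheme of `U`
  have hrh : IsHomeomorph r :=
    isHomeomorph_iff_isEmbedding_surjective.2 ⟨r.isClosedEmbedding.isEmbedding, nilradical_surjective⟩
  let O : (U : Scheme.{0}).Opens := ⟨r '' Set.range b, hrh.isOpenMap _ b.isOpenEmbedding.isOpen_range⟩
  have hO : Set.range O.ι = r '' Set.range b := Scheme.Opens.range_ι O
  have hOf : FiniteType O := hUf.of_open O.ι inferInstance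
  have h1 : IsOpenImmersion (pullback.fst r O.ι) := inferInstance
  have h2 : IsClosedImmersion (pullback.snd r O.ι) := inferInstance
  have h3 : Set.range b = Set.range (pullback.fst r O.ι) := by
    rw [Scheme.Pullback.range_fst, hO, Set.preimage_image_eq _ r.isClosedEmbedding.injective]
  let E := IsOpenImmersion.isoOfRangeEq b (pullback.fst r O.ι) h3
  have h4 : Function.Surjective (pullback.snd r O.ι) := by
    rw [← Set.range_eq_univ, Scheme.Pullback.range_snd, Set.eq_univ_iff_forall]
    intro w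
    exact nilradical_surjective _
  have hPO : P O := by
    refine P3 (E.hom ≫ pullback.snd r O.ι) hOf inferInstance ?_ hW
    intro w
    obtain ⟨z, rfl⟩ := h4 w
    exact ⟨E.inv z, by
      rw [← Scheme.Hom.comp_apply, Iso.inv_hom_id_assoc]⟩
  obtain ⟨Z, i, hi, hc⟩ := exists_complement (O.ι ≫ U.ι) inferInstance
  refine P1 i (O.ι ≫ U.ι) hX hi inferInstance hc (ih Z i hi ?_
    ((i.isClosedEmbedding.isInducing.topologicalKrullDim_le).trans hdim)) hPO
  intro hs
  have h5 : r (b x) ∈ Set.range O.ι := by rw [hO]; exact ⟨b x, ⟨x, rfl⟩, rfl⟩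
  obtain ⟨w, hw⟩ := h5
  obtain ⟨z, hz⟩ := hs ((O.ι ≫ U.ι) w)
  exact Set.disjoint_left.1 hc.disjoint ⟨z, hz⟩ ⟨w, rfl⟩

end Pool.Agent.Helper83.AS
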