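import Pool.Agent.Helper83.AS.Geom

/-! # Schemes of finite type over `ℤ` have finite dimension -/

set_option autoImplicit false

open CategoryTheory CategoryTheory.Limits AlgebraicGeometry TopologicalSpace Topology

namespace Pool.Agent.Helper83.AS

theorem subset_of_inter_subset {X : Type*} [TopologicalSpace X] {C C' U : Set X} (hC : IsIrreducible C)
    (hC' : IsClosed C') (hU : IsOpen U) (h : (C ∩ U).Nonempty) (hs : C ∩ U ⊆ C') : C ⊆ C' :=
  (subset_closure_inter_of_isPreirreducible_of_isOpen hC.isPreirreducible hU h).trans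
    (closure_minimal hs hC')

theorem krullDim_le_of_cover {X : Type*} [TopologicalSpace X] {ι : Type*} {U : ι → Type*}
    [∀ i, TopologicalSpace (U i)] (f : ∀ i, U i → X) (hf : ∀ i, IsOpenEmbedding (f i))
    (hc : ∀ x, ∃ i, x ∈ Set.range (f i)) {d : ℕ} (hd : ∀ i, topologicalKrullDim (U i) ≤ d) :
    topologicalKrullDim X ≤ d := by
  unfold topologicalKrullDim Order.krullDim
  refine iSup_le fun p => ?_
  obtain ⟨x, hx⟩ := p.head.isIrreducible.nonempty
  obtain ⟨i, hi⟩ := hc x
  have hx' : ∀ k, x ∈ (p k : Set X) := fun k => p.head_le k hx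
  obtain ⟨u, rfl⟩ := hi
  let F : _root_.Fin (p.length + 1) → IrreducibleCloseds (U i) := fun k =>
    ⟨f i ⁻¹' (p k : Set X), ⟨⟨u, hx' k⟩, (p k).isIrreducible.isPreirreducible.preimage (hf i)⟩,
      (p k).isClosed.preimage (hf i).continuous⟩
  have hF : StrictMono F := by
    intro a b hab
    have h1 : p a < p b := p.strictMono hab
    rw [lt_iff_le_and_ne] at h1 ⊢
    refine ⟨fun v hv => h1.1 hv, fun h => h1.2 (le_antisymm h1.1 ?_)⟩
    have h2 : f i ⁻¹' (p a : Set X) = f i ⁻¹' (p b : Set X) :=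
      congrArg (fun c : IrreducibleCloseds (U i) => (c : Set (U i))) h
    refine subset_of_inter_subset (p b).isIrreducible (p a).isClosed (hf i).isOpen_range
      ⟨f i u, hx' b, u, rfl⟩ ?_
    rintro _ ⟨h3, v, rfl⟩
    have h4 : v ∈ f i ⁻¹' (p b : Set X) := h3
    rw [← h2] at h4
    exact h4
  let q : LTSeries (IrreducibleCloseds (U i)) := LTSeries.mk p.length F hF
  exact (Order.LTSeries.length_le_krullDim q).trans (hd i)

theorem krullDim_Spec {R : CommRingCat.{0}} (f : Spec R ⟶ Spec (.of ℤ)) [LocallyOfFiniteType f] :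
    ∃ d : ℕ, topologicalKrullDim (Spec R) ≤ d := by
  obtain ⟨φ, rfl⟩ := Spec.map_surjective f
  have h1 : φ.hom.FiniteType := HasRingHomProperty.Spec_iff.mp ‹_›
  have h2 : @Algebra.FiniteType ℤ R _ _ φ.hom.toAlgebra := h1
  let _ : Algebra ℤ R := φ.hom.toAlgebra
  obtain ⟨n, g, hg⟩ := Algebra.FiniteType.iff_quotient_mvPolynomial''.1 h2
  refine ⟨1 + n, ?_⟩
  have h3 : topologicalKrullDim (Spec R) = ringKrullDim R := PrimeSpectrum.topologicalKrullDim_eq_ringKrullDim R
  rw [h3]
  refine (ringKrullDim_le_of_surjective g.toRingHom hg).trans ?_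
  rw [MvPolynomial.ringKrullDim_of_isNoetherianRing, IsPrincipalIdealRing.ringKrullDim_eq_one ℤ Int.not_isField]
  simp

theorem FiniteType.exists_dim {X : Scheme.{0}} (h : FiniteType X) : ∃ d : ℕ, topologicalKrullDim X ≤ d := by
  have h1 := h.finiteType
  have h2 := h.isNoetherian
  let e : (⊤_ Scheme.{0}) ≅ Spec (.of ℤ) := terminalIsTerminal.uniqueUpToIso specZIsTerminal
  let s : X ⟶ Spec (.of ℤ) := terminal.from X ≫ e.hom
  have hs : LocallyOfFiniteType s := inferInstance
  let 𝒰 := X.affineCover.finiteSubcover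
  have h3 : ∀ i, ∃ d : ℕ, topologicalKrullDim (𝒰.X i) ≤ d := by
    intro i
    have h4 : LocallyOfFiniteType (𝒰.f i) := inferInstance
    have h5 : LocallyOfFiniteType (𝒰.f i ≫ s) := locallyOfFiniteType_comp _ _
    exact @krullDim_Spec _ (𝒰.f i ≫ s) h5
  choose d hd using h3
  refine ⟨∑ i, d i, krullDim_le_of_cover (fun i => 𝒰.f i) (fun i => (𝒰.f i).isOpenEmbedding) ?_ ?_⟩
  · intro x
    exact ⟨_, 𝒰.covers x⟩
  · intro i
    refine (hd i).trans ?_
    exact_mod_cast Finset.single_le_sum (f := d) (fun _ _ => Nat.zero_le _) (Finset.mem_univ i)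

end Pool.Agent.Helper83.AS
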