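import Pool.Agent.Helper83.AS.Defs

/-! # Schemes of finite type over `ℤ`: closed and open subschemes, Noetherian induction -/

set_option autoImplicit false

open CategoryTheory CategoryTheory.Limits AlgebraicGeometry

namespace Pool.Agent.Helper83.AS

/-! ## Finite type -/

theorem FiniteType.isNoetherian {X : Scheme.{0}} (h : FiniteType X) : IsNoetherian X := by
  have h1 := h.finiteType
  have h2 := h.quasiCompact
  let e : (⊤_ Scheme.{0}) ≅ Spec (.of ℤ) := terminalIsTerminal.uniqueUpToIso specZIsTerminal
  have h3 : IsLocallyNoetherian X := LocallyOfFiniteType.isLocallyNoetherian (terminal.from X ≫ e.hom)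
  have h4 : CompactSpace X := (compactSpace_iff_quasiCompact X).2 h2
  exact { h3, h4 with }

theorem FiniteType.of_finiteType {X Z : Scheme.{0}} (h : FiniteType X) (i : Z ⟶ X) (h1 : IsSeparated i)
    (h2 : LocallyOfFiniteType i) (h3 : QuasiCompact i) : FiniteType Z := by
  have h4 := h.separated
  have h5 := h.finiteType
  have h6 := h.quasiCompact
  have h7 : terminal.from Z = i ≫ terminal.from X := (terminal.comp_from i).symm
  refine ⟨?_, ?_, ?_⟩ <;> rw [h7] <;> infer_instance

theorem FiniteType.of_closed {X Z : Scheme.{0}} (h : FiniteType X) (i : Z ⟶ X) (hi : IsClosedImmersion i) :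
    FiniteType Z :=
  h.of_finiteType i inferInstance inferInstance inferInstance

theorem FiniteType.of_open {X U : Scheme.{0}} (h : FiniteType X) (i : U ⟶ X) (hi : IsOpenImmersion i) :
    FiniteType U := by
  have := h.isNoetherian
  have h1 : QuasiCompact i := by
    have : IsLocallyNoetherian X := inferInstance
    infer_instance
  exact h.of_finiteType i inferInstance inferInstance h1

theorem Arithmetic.finiteType {X : Scheme.{0}} {d : ℕ} (h : Arithmetic X d) : FiniteType X := by
  have := h.proper
  exact ⟨inferInstance, inferInstance, inferInstance⟩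

end Pool.Agent.Helper83.AS
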