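import Pool.Agent.Helper83.AS.Weights

/-! # The equivalences -/

set_option autoImplicit false

open CategoryTheory CategoryTheory.Limits AlgebraicGeometry

namespace Pool.Agent.Helper83.AS

universe v

variable {T : Theory.{v}} (hT : T.Standard) {R : ℕ → ℕ → Prop}

include hT

omit hT in
theorem fg_H {X : Scheme.{0}} {d n m : ℕ} {i j : ℤ} (h1 : n - d = m) (h2 : 2 * (d : ℤ) - i = j) :
    AddGroup.FG (T.H X d n i) ↔ Module.Finite ℤ (T.BM X m j) := by
  subst h1 h2
  exact fg_iff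

omit hT in
theorem subsingleton_H {X : Scheme.{0}} {d n m : ℕ} {i j : ℤ} (h1 : n - d = m) (h2 : 2 * (d : ℤ) - i = j) :
    Subsingleton (T.H X d n i) ↔ Subsingleton (T.BM X m j) := by
  subst h1 h2
  exact Iff.rfl

/-! ## Negative weights -/

theorem negative_iff {X : Scheme.{0}} (hX : FiniteType X) : T.Negative X ↔ T.Fg X := by
  constructor
  · intro h m hm j
    exact fg_iff.1 (h m hm j).1
  · intro h m hm j
    exact ⟨fg_iff.2 (h m hm j), fun d hd hj =>
      subsingleton_of_rational (h m hm j) (hT.rational hX hd m j hj)⟩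

/-- the centre of a blow-up -/
theorem fg_of_sample (hG : Geometry) (hR : ∀ t D : ℕ, ∃ d ≥ D, R d t) {Z : Scheme.{0}} {e : ℕ} (hZ : Arithmetic Z e)
    (hZp : IsProjective Z) (h : ∀ (Y : Scheme.{0}) (d : ℕ), Rational Z e Y d → T.Sample R Y d) : T.Fg Z := by
  intro m hm j
  rcases lt_or_ge (2 * (m : ℤ) + j) 0 with h0 | h0
  · have := hT.high hZ m hm j h0
    exact Module.Finite.of_finite
  obtain ⟨t, ht⟩ := Int.eq_ofNat_of_zero_le h0
  obtain ⟨N₀, hN₀⟩ := hZp.exists_embedding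
  obtain ⟨d, hd, hRd⟩ := hR t (N₀ + e + m + t + 1)
  obtain ⟨M, rfl⟩ : ∃ M, d = M + 1 := ⟨d - 1, by omega⟩
  obtain ⟨i, hi⟩ := hN₀ M (by omega)
  obtain ⟨Y, f, hf⟩ := hG.exists_blowup i hi hZ (by omega)
  have h1 := h Y (M + 1) ⟨M, i, f, rfl, by omega, hi, hf⟩ t hRd (by omega)
  have h2 : Module.Finite ℤ (T.BM Y 0 t) := (fg_H (by omega) (by ring)).1 h1
  obtain ⟨δ, g, k, hδg, hgk⟩ := hT.blowup i f hi hZ (by omega) hf t
  have h4 : Module.Finite ℤ (T.BM (space M) 0 (t + 1)) := fg_iff.1 (hT.projective M (t + 1) (by omega))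
  have h5 := finite_mid hδg h4 h2
  have h6 : Function.Surjective (Pi.evalAddMonoidHom
      (fun k : _root_.Fin (M - e) => T.BM Z (k + 1) (t - 2 * ((k : ℕ) + 1))) ⟨m - 1, by omega⟩).toIntLinearMap :=
    Function.surjective_eval _
  have h7 : Module.Finite ℤ (T.BM Z (m - 1 + 1) (t - 2 * (((m - 1 : ℕ) : ℤ) + 1))) :=
    Module.Finite.of_surjective _ h6
  have h8 : m - 1 + 1 = m := by omega
  have h9 : (t : ℤ) - 2 * (((m - 1 : ℕ) : ℤ) + 1) = j := by
    rw [Nat.cast_sub hm]; push_cast; omega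
  rw [h8, h9] at h7
  exact h7

/-- blow-ups of projective spaces along a centre with finitely generated groups -/
theorem sample_of_negative {Y Z : Scheme.{0}} {e d : ℕ} (hZ : Arithmetic Z e) (hY : Rational Z e Y d)
    (h : T.Fg Z) : T.Sample R Y d := by
  obtain ⟨M, i, f, rfl, he, hi, hf⟩ := hY
  intro t _ _
  obtain ⟨δ, g, k, hδg, hgk⟩ := hT.blowup i f hi hZ he hf t
  have h1 : ∀ k : _root_.Fin (M - e), Module.Finite ℤ (T.BM Z (k + 1) (t - 2 * ((k : ℕ) + 1))) :=
    fun k => h (k + 1) (by omega) _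
  have h2 : Module.Finite ℤ (T.BM (space M) 0 t) := fg_iff.1 (hT.projective M t (by omega))
  have h3 : Module.Finite ℤ (T.BM Y 0 t) := finite_mid hgk inferInstance h2
  exact (fg_H (by omega) (by ring)).2 h3

/-- one of the implications, for the centres of a given dimension -/
theorem negative_of_sample (hG : Geometry) (hR : ∀ t D : ℕ, ∃ d ≥ D, R d t) {D : ℕ}
    (h : ∀ e ≤ D, ∀ Z : Scheme.{0}, Arithmetic Z e → ∀ (Y : Scheme.{0}) (d : ℕ), Rational Z e Y d → T.Sample R Y d)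
    {X : Scheme.{0}} (hX : FiniteType X) (hd : topologicalKrullDim X ≤ D) : T.Negative X :=
  (negative_iff hT hX).2 (fg_of_arithmetic hT hG (fun e he Z hZ hZp => fg_of_sample hT hG hR hZ hZp (h e he Z hZ)) X hX hd)

/-! ## Weights at least the dimension -/

theorem weight_of_sample (hR : ∀ t D : ℕ, ∃ d ≥ D, R d t) {X : Scheme.{0}} {d : ℕ} (hX : Arithmetic X d)
    (h : ∀ N, T.Sample R (product N X) (d + N)) {n : ℕ} (hn : d ≤ n) : T.Weight X d n := by
  intro i hi
  obtain ⟨t, ht⟩ := Int.eq_ofNat_of_zero_le (sub_nonneg.2 hi)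
  obtain ⟨w, hw, hRw⟩ := hR t (n + t)
  obtain ⟨N, rfl⟩ : ∃ N, w = d + N := ⟨w - d, by omega⟩
  have h1 : Module.Finite ℤ (T.BM (product N X) 0 t) :=
    (fg_H (by omega) (by ring)).1 (h N t hRw (by omega))
  obtain ⟨E⟩ := hT.bundle hX N t
  have h2 : Module.Finite ℤ ((k : _root_.Fin (N + 1)) → T.BM X k (t - 2 * (k : ℕ))) :=
    Module.Finite.equiv E.toIntLinearEquiv
  have h3 : Function.Surjective (Pi.evalAddMonoidHom
      (fun k : _root_.Fin (N + 1) => T.BM X k (t - 2 * (k : ℕ))) ⟨n - d, by omega⟩).toIntLinearMap :=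
    Function.surjective_eval _
  have h4 : Module.Finite ℤ (T.BM X (n - d) (t - 2 * ((n - d : ℕ) : ℤ))) := Module.Finite.of_surjective _ h3
  have h5 : 2 * (d : ℤ) - i = t - 2 * ((n - d : ℕ) : ℤ) := by
    rw [Nat.cast_sub hn]; omega
  refine ⟨(fg_H rfl h5).2 h4, fun h0 => (subsingleton_H rfl h5).2 ?_⟩
  exact subsingleton_of_rational h4 (hT.rational hX.finiteType hX.dim.le _ _ (by rw [← h5]; omega))

theorem sample_of_weight {X : Scheme.{0}} {d : ℕ} (hX : Arithmetic X d)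
    (h : ∀ n ≥ d, T.Weight X d n) (N : ℕ) : T.Sample R (product N X) (d + N) := by
  intro t _ ht
  obtain ⟨E⟩ := hT.bundle hX N t
  have h1 : ∀ k : _root_.Fin (N + 1), Module.Finite ℤ (T.BM X k (t - 2 * (k : ℕ))) := by
    intro k
    refine (fg_H (n := d + k) (i := 2 * ((d : ℤ) + k) - t) (by omega) (by ring)).1
      (h (d + k) (by omega) _ (by push_cast; omega)).1
  have h2 : Module.Finite ℤ (T.BM (product N X) 0 t) := Module.Finite.equiv E.symm.toIntLinearEquiv
  exact (fg_H (by omega) (by ring)).2 h2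

/-! ## The weight zero -/

theorem zero_of_weight (hG : Geometry) (h : ∀ (X : Scheme.{0}) (d : ℕ), Arithmetic X d → T.Weight X d d)
    {X : Scheme.{0}} (hX : FiniteType X) : T.Zero X := by
  have key : ∀ D : ℕ, topologicalKrullDim X ≤ D → T.Rk D X := by
    intro D hD
    refine rk_of_arithmetic hT hG (fun e _ Y hY j => ?_) X hX hD
    rcases lt_or_ge j 0 with hj | hj
    · refine ⟨?_, fun h1 => by omega⟩
      rw [rank_eq_zero_of_torsion (hT.top hY j hj)]
      exact Cardinal.aleph0_pos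
    · have h1 := h Y e hY (2 * e - j) (by omega)
      refine ⟨?_, fun h2 => (subsingleton_H (by omega) (by ring)).1 (h1.2 (by omega))⟩
      have h2 : Module.Finite ℤ (T.BM Y 0 j) := (fg_H (by omega) (by ring)).1 h1.1
      exact Module.rank_lt_aleph0 ℤ _
  obtain ⟨D, hD⟩ := hX.exists_dim
  exact fun j => ⟨(key D hD j).1, fun d hd hj => (key d hd j).2 hj⟩

end Pool.Agent.Helper83.AS
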