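import Pool.Agent.Helper83.AS.Geom

/-! # Noetherian induction, dimensions and reduced closed subschemes -/

set_option autoImplicit false

open CategoryTheory CategoryTheory.Limits AlgebraicGeometry TopologicalSpace Topology

namespace Pool.Agent.Helper83.AS

/-! ## Noetherian induction -/

theorem noetherian_induction {P : Scheme.{0} → Prop}
    (step : ∀ X, FiniteType X →
      (∀ (Z : Scheme.{0}) (i : Z ⟶ X), IsClosedImmersion i → ¬ Function.Surjective i → P Z) → P X)
    (X : Scheme.{0}) (hX : FiniteType X) : P X := by
  have := hX.isNoetherian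
  have h1 : WellFoundedLT (Closeds X) := inferInstance
  have key : ∀ C : Closeds X, ∀ (Z : Scheme.{0}) (i : Z ⟶ X), IsClosedImmersion i → Set.range i = C → P Z := by
    intro C
    induction C using WellFoundedLT.induction with
    | ind C ih =>
      intro Z i hi hC
      refine step Z (hX.of_closed i hi) fun W k hk hs => ?_
      have h2 : IsClosedImmersion (k ≫ i) := inferInstance
      have h3 : Set.range (k ≫ i) = i '' Set.range k := by
        rw [← Set.range_comp]; rfl
      refine ih ⟨Set.range (k ≫ i), (k ≫ i).isClosedEmbedding.isClosed_range⟩ ?_ W (k ≫ i) h2 rfl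
      rw [lt_iff_le_and_ne]
      constructor
      · intro x hx
        change x ∈ (C : Set X)
        rw [← hC]
        change x ∈ Set.range (k ≫ i) at hx
        rw [h3] at hx
        exact Set.image_subset_range _ _ hx
      · intro h4
        apply hs
        intro z
        have h5 : i z ∈ (C : Set X) := by rw [← hC]; exact Set.mem_range_self z
        rw [← h4] at h5
        change i z ∈ Set.range (k ≫ i) at h5
        rw [h3] at h5
        obtain ⟨_, ⟨w, rfl⟩, hw⟩ := h5
        exact ⟨w, i.isClosedEmbedding.injective hw⟩
  exact key ⟨Set.range (𝟙 X : X ⟶ X), (𝟙 X : X ⟶ X).isClosedEmbedding.isClosed_range⟩ X (𝟙 X) inferInstance rfl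

/-! ## Dimension -/

theorem krullDim_add_one_le {Z Y : Type*} [TopologicalSpace Z] [TopologicalSpace Y] [IrreducibleSpace Y] {i : Z → Y}
    (hi : IsClosedEmbedding i) (hs : ¬ Function.Surjective i) :
    topologicalKrullDim Z + 1 ≤ topologicalKrullDim Y := by
  rcases isEmpty_or_nonempty (IrreducibleCloseds Z) with hZ | hZ
  · unfold topologicalKrullDim
    rw [Order.krullDim_eq_bot]
    simp
  · unfold topologicalKrullDim
    rw [← Order.krullDim_WithTop]
    let G : IrreducibleCloseds Z → IrreducibleCloseds Y := fun c =>
      ⟨i '' c, c.isIrreducible.image i hi.continuous.continuousOn, hi.isClosedMap _ c.isClosed⟩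
    have hG : StrictMono G := by
      intro a b hab
      rw [lt_iff_le_and_ne] at hab ⊢
      refine ⟨Set.image_mono hab.1, fun h => hab.2 ?_⟩
      have h1 : i '' (a : Set Z) = i '' (b : Set Z) := congrArg (fun c : IrreducibleCloseds Y => (c : Set Y)) h
      exact SetLike.coe_injective (hi.injective.image_injective h1)
    let t : IrreducibleCloseds Y := ⟨Set.univ, IrreducibleSpace.isIrreducible_univ Y, isClosed_univ⟩
    have ht : ∀ a, G a < t := by
      intro a
      rw [lt_iff_le_and_ne]
      refine ⟨Set.subset_univ _, fun h => hs fun y => ?_⟩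
      have h1 : i '' (a : Set Z) = Set.univ := congrArg (fun c : IrreducibleCloseds Y => (c : Set Y)) h
      obtain ⟨z, _, hz⟩ : y ∈ i '' (a : Set Z) := by rw [h1]; trivial
      exact ⟨z, hz⟩
    let F : WithTop (IrreducibleCloseds Z) → IrreducibleCloseds Y := fun c => c.recTopCoe t G
    apply Order.krullDim_le_of_strictMono F
    intro a b hab
    induction b using WithTop.recTopCoe with
    | top =>
      induction a using WithTop.recTopCoe with
      | top => exact absurd hab (lt_irrefl _)
      | coe a => exact ht a
    | coe b =>
      induction a using WithTop.recTopCoe with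
      | top => exact absurd hab (not_lt_of_ge le_top)
      | coe a => exact hG (WithTop.coe_lt_coe.1 hab)

/-! ## Reduced closed subschemes -/

instance {X : Scheme.{0}} : IsReduced X.nilradical.subscheme := by
  have h1 : ∀ U : X.affineOpens, IsReduced (Spec (.of (Γ(X, U) ⧸ X.nilradical.ideal U))) := by
    intro U
    have h2 : (X.nilradical.ideal U).IsRadical := by
      change (Ideal.radical _).IsRadical
      exact Ideal.radical_isRadical _
    have h3 : _root_.IsReduced (Γ(X, U) ⧸ X.nilradical.ideal U) := (Ideal.isRadical_iff_quotient_reduced _).1 h2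
    rw [affine_isReduced_iff]
    exact h3
  have h2 : ∀ U, IsReduced (X.nilradical.subschemeCover.openCover.X U) := h1
  exact IsReduced.of_openCover _ X.nilradical.subschemeCover.openCover

theorem nilradical_surjective {X : Scheme.{0}} : Function.Surjective X.nilradical.subschemeι := by
  rw [← Set.range_eq_univ, Scheme.IdealSheafData.range_subschemeι]
  rfl

theorem nilradical_isIntegral {X : Scheme.{0}} [IrreducibleSpace X] : IsIntegral X.nilradical.subscheme := by
  have h1 : IsHomeomorph X.nilradical.subschemeι :=
    isHomeomorph_iff_isEmbedding_surjective.2 ⟨X.nilradical.subschemeι.isClosedEmbedding.isEmbedding, nilradical_surjective⟩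
  have h2 : IrreducibleSpace X.nilradical.subscheme := by
    have h3 := (h1.homeomorph _).symm
    exact Function.Surjective.irreducibleSpace h3.continuous h3.surjective
  exact isIntegral_of_irreducibleSpace_of_isReduced _

/-- a scheme which is neither empty nor irreducible is the union of two closed subschemes -/
theorem exists_closed_cover {X : Scheme.{0}} [Nonempty X] (h : ¬ IrreducibleSpace X) :
    ∃ (A B : Scheme.{0}) (a : A ⟶ X) (b : B ⟶ X), IsClosedImmersion a ∧ IsClosedImmersion b ∧
      ¬ Function.Surjective a ∧ ¬ Function.Surjective b ∧ Set.range a ∪ Set.range b = Set.univ := by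
  have h1 : ¬ IsPreirreducible (Set.univ : Set X) := fun h2 => h
    { toPreirreducibleSpace := ⟨h2⟩, toNonempty := inferInstance }
  rw [isPreirreducible_iff_isClosed_union_isClosed] at h1
  push Not at h1
  obtain ⟨A, B, hA, hB, hAB, hA1, hB1⟩ := h1
  have key : ∀ C : Set X, (hC : IsClosed C) → Set.range (Scheme.IdealSheafData.vanishingIdeal ⟨C, hC⟩).subschemeι = C := by
    intro C hC
    rw [Scheme.IdealSheafData.range_subschemeι]
    rfl
  refine ⟨_, _, (Scheme.IdealSheafData.vanishingIdeal ⟨A, hA⟩).subschemeι,
    (Scheme.IdealSheafData.vanishingIdeal ⟨B, hB⟩).subschemeι, inferInstance, inferInstance, ?_, ?_, ?_⟩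
  · rw [← Set.range_eq_univ, key]
    exact fun h2 => hA1 h2.ge
  · rw [← Set.range_eq_univ, key]
    exact fun h2 => hB1 h2.ge
  · rw [key, key]
    exact Set.univ_subset_iff.1 hAB

end Pool.Agent.Helper83.AS
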