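import Pool.Agent.Helper83.AS.Dev
import Pool.Agent.Helper83.AS.Alg
import Pool.Agent.Helper83.AS.Dim

/-! # From regular projective schemes to all schemes of finite type -/

set_option autoImplicit false

open CategoryTheory CategoryTheory.Limits AlgebraicGeometry TopologicalSpace Topology Cardinal

namespace Pool.Agent.Helper83.AS

universe v

/-- all the groups in the weights `-m < 0` are finitely generated -/
def Theory.Fg (T : Theory.{v}) (X : Scheme.{0}) : Prop := ∀ m ≥ 1, ∀ j, Module.Finite ℤ (T.BM X m j)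

/-- the weight `0`: finite rank, and vanishing above `2 D` -/
def Theory.Rk (T : Theory.{v}) (D : ℕ) (X : Scheme.{0}) : Prop :=
  ∀ j, Module.rank ℤ (T.BM X 0 j) < ℵ₀ ∧ (2 * (D : ℤ) < j → Subsingleton (T.BM X 0 j))

variable {T : Theory.{v}} (hT : T.Standard)

include hT

/-- the degree of the finite flat cover of an alteration -/
theorem exists_cover (hG : Geometry) {X : Scheme.{0}} {e : ℕ} (hX : FiniteType X) (hI : IsIntegral X)
    (hd : topologicalKrullDim X = e) :
    ∃ (Y V U Z : Scheme.{0}) (a : V ⟶ Y) (i : Z ⟶ Y) (b : U ⟶ X) (N : ℕ), Arithmetic Y e ∧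
      IsProjective Y ∧ IsOpenImmersion a ∧ IsClosedImmersion i ∧ IsCompl (Set.range i) (Set.range a) ∧
      topologicalKrullDim Z < e ∧ IsOpenImmersion b ∧ Nonempty U ∧ 0 < N ∧ ∀ (m : ℕ) (j : ℤ),
      ∃ (pull : T.BM U m j →+ T.BM V m j) (push : T.BM V m j →+ T.BM U m j), ∀ x, push (pull x) = N • x := by
  obtain ⟨Y, V, U, a, b, f, hYa, hYp, ha, hb, hU, hf, hfl, hfs⟩ := hG.alteration X e hX hI hd
  have hUf : FiniteType U := hX.of_open b hb
  have hYi := hYa.integral
  obtain ⟨Z, i, hi, hc⟩ := exists_complement a ha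
  have hV : Nonempty V := by
    obtain ⟨x⟩ := hU
    obtain ⟨y, -⟩ := hfs.surj x
    exact ⟨y⟩
  have hUn := hUf.isNoetherian
  have hUi : IsIntegral U := isIntegral_of_isOpenImmersion b
  have h2 : IsLocallyConstant f.finrank := Scheme.Hom.isLocallyConstant_finrank f
  obtain ⟨x⟩ := hU
  have h3 : ∀ y : U, f.finrank y = f.finrank x := fun y => h2.apply_eq_of_preconnectedSpace y x
  have h4 : 0 < f.finrank x := (Scheme.Hom.one_le_finrank_iff_surjective f).2 hfs x
  exact ⟨Y, V, U, Z, a, i, b, _, hYa, hYp, ha, hi, hc, krullDim_complement_lt hYa.dim i a hi hV hc, hb, ⟨x⟩, h4,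
    hT.transfer f hUf hf hfl _ h3⟩

/-! ## Negative weights -/

theorem fg_of_isEmpty {X : Scheme.{0}} (h : IsEmpty X) : T.Fg X := by
  intro m _ j
  have := hT.empty X h m j
  exact Module.Finite.of_finite

/-- **Negative weights.** If the groups are finitely generated for the regular projective schemes of
dimension at most `D`, they are so for all schemes of finite type of dimension at most `D`. -/
theorem fg_of_arithmetic (hG : Geometry) : ∀ {D : ℕ}, (∀ e ≤ D, ∀ Y, Arithmetic Y e → IsProjective Y → T.Fg Y) →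
    ∀ X, FiniteType X → topologicalKrullDim X ≤ D → T.Fg X := by
  intro D
  induction D using Nat.strong_induction_on with
  | _ D ih =>
    intro hY
    refine devissage (P := T.Fg) (fun X h => fg_of_isEmpty hT h) ?_ ?_
    · intro X Z U i u hX hi hu hc hZ hU m hm j
      obtain ⟨push, pull, δ, hex⟩ := hT.localization i u hX hi hu hc m
      exact finite_mid (hex j).1 (hZ m hm j) (hU m hm j)
    · intro X e hX hI hd he
      obtain ⟨Y, V, U, Z, a, i, b, N, hYa, hYp, ha, hi, hc, hdZ, hb, hU, hN, htr⟩ := exists_cover hT hG hX hI hd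
      refine ⟨U, b, hb, hU, ?_⟩
      have hYf : FiniteType Y := hYa.finiteType
      have hZf : FiniteType Z := hYf.of_closed i hi
      have hZ : T.Fg Z := by
        rcases Nat.eq_zero_or_pos e with rfl | he0
        · exact fg_of_isEmpty hT (isEmpty_of_lt_zero hdZ)
        · refine ih (e - 1) (by omega) (fun e' he' => hY e' (by omega)) Z hZf (le_of_lt_add_one ?_)
          rwa [Nat.sub_add_cancel he0]
      intro m hm j
      obtain ⟨push, pull, δ, hex⟩ := hT.localization i a hYf hi ha hc m
      have h1 := finite_mid (hex (j - 1)).2.1 (hY e he Y hYa hYp m hm (j - 1 + 1)) (hZ m hm (j - 1))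
      rw [sub_add_cancel] at h1
      obtain ⟨p, q, hpq⟩ := htr m j
      exact finite_of_transfer p q h1 hpq (hT.torsion (hX.of_open b hb) m j _ hN)

/-! ## The weight zero -/

theorem rk_of_isEmpty {D : ℕ} {X : Scheme.{0}} (h : IsEmpty X) : T.Rk D X := by
  intro j
  have := hT.empty X h 0 j
  refine ⟨?_, fun _ => this⟩
  rw [rank_subsingleton']
  exact Cardinal.aleph0_pos

/-- **The weight zero.** -/
theorem rk_of_arithmetic (hG : Geometry) : ∀ {D : ℕ}, (∀ e ≤ D, ∀ Y, Arithmetic Y e → T.Rk e Y) →
    ∀ X, FiniteType X → topologicalKrullDim X ≤ D → T.Rk D X := by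
  intro D
  induction D using Nat.strong_induction_on with
  | _ D ih =>
    intro hY X0 hX0 hd0
    refine (devissage (P := fun X => topologicalKrullDim X ≤ D → T.Rk D X) (D := D)
      (fun X h _ => rk_of_isEmpty hT h) ?_ ?_ X0 hX0 hd0) hd0
    · intro X Z U i u hX hi hu hc hZ hU hXd j
      obtain ⟨push, pull, δ, hex⟩ := hT.localization i u hX hi hu hc 0
      have h1 := hZ ((i.isClosedEmbedding.isInducing.topologicalKrullDim_le).trans hXd) j
      have h2 := hU ((u.isOpenEmbedding.isInducing.topologicalKrullDim_le).trans hXd) j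
      refine ⟨rank_mid (hex j).1 h1.1 h2.1, fun hj => ?_⟩
      have h3 := h1.2 hj
      have h4 := h2.2 hj
      exact subsingleton_mid (hex j).1
    · intro X e hX hI hd he
      obtain ⟨Y, V, U, Z, a, i, b, N, hYa, hYp, ha, hi, hc, hdZ, hb, hU, hN, htr⟩ := exists_cover hT hG hX hI hd
      refine ⟨U, b, hb, hU, fun hUd => ?_⟩
      have hYf : FiniteType Y := hYa.finiteType
      have hZf : FiniteType Z := hYf.of_closed i hi
      have hZ : T.Rk (e - 1) Z ∧ (e = 0 → IsEmpty Z) := by
        rcases Nat.eq_zero_or_pos e with rfl | he0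
        · exact ⟨rk_of_isEmpty hT (isEmpty_of_lt_zero hdZ), fun _ => isEmpty_of_lt_zero hdZ⟩
        · refine ⟨ih (e - 1) (by omega) (fun e' he' => hY e' (by omega)) Z hZf (le_of_lt_add_one ?_),
            fun h => by omega⟩
          rwa [Nat.sub_add_cancel he0]
      intro j
      obtain ⟨push, pull, δ, hex⟩ := hT.localization i a hYf hi ha hc 0
      have h1 := rank_mid (hex (j - 1)).2.1 (hY e he Y hYa (j - 1 + 1)).1 (hZ.1 (j - 1)).1
      have h2 : 2 * (D : ℤ) < j → Subsingleton (T.BM V 0 (j - 1 + 1)) := by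
        intro hj
        have h3 := (hY e he Y hYa (j - 1 + 1)).2 (by omega)
        have h4 : Subsingleton (T.BM Z 0 (j - 1)) := by
          rcases Nat.eq_zero_or_pos e with h5 | h5
          · exact hT.empty Z (hZ.2 h5) 0 _
          · exact (hZ.1 (j - 1)).2 (by omega)
        exact subsingleton_mid (hex (j - 1)).2.1
      rw [sub_add_cancel] at h1 h2
      obtain ⟨p, q, hpq⟩ := htr 0 j
      refine ⟨rank_transfer hN p q h1 hpq, fun hj => ?_⟩
      have h3 := h2 hj
      have h4 := hT.rational (hX.of_open b hb) hUd 0 j hj N hN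
      refine ⟨fun x y => h4.1 ?_⟩
      change N • x = N • y
      rw [← hpq, ← hpq, Subsingleton.elim (p x) (p y)]

end Pool.Agent.Helper83.AS
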